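import Pool.Agent.U195.IH.Sub

set_option autoImplicit false

/-!
Indiscernible sets which meet all sets of a family of at most continuum many sets.
-/

namespace Pool.Agent.U195.IH

open Set Function Cardinal MeasureTheory
open Pool.Agent.TH735.QM Pool.Agent.TH735.FO Pool.Agent.TH735.BF Pool.Agent.R158.MM
open Pool.Agent.N587.IC
open scoped Cardinal

section comb

variable {J : Type} [Countable J] {ar : J → ℕ} (Y : (j : J) → Set (Fin (ar j) → ℂ))

/-- all configurations in `H` are good -/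
def Hom (H : Set ℂ) : Prop :=
  ∀ (k : J) (A : Finset (Fin (ar k))) (x : Fin (ar k) → ℂ), InjOn x A → (∀ i ∈ A, x i ∈ H) →
    Good (Y k) A x

/-- the bad points for one configuration -/
def E (H : Set ℂ) (p : Σ k : J, (Finset (Fin (ar k))) × (Fin (ar k) → (insert 0 H : Set ℂ)) ×
    Fin (ar k)) : Set ℂ :=
  {z : ℂ | Good (Y p.1) p.2.1 (fun j => (p.2.2.1 j : ℂ)) ∧ p.2.2.2 ∉ p.2.1 ∧
    ¬ Good (Y p.1) (insert p.2.2.2 p.2.1) (update (fun j => (p.2.2.1 j : ℂ)) p.2.2.2 z)}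

/-- the forbidden points -/
def Bad (H : Set ℂ) : Set ℂ := H ∪ ⋃ p, E Y H p

theorem hom_empty (h0 : ∀ (j : J) (l : List (Fin (ar j))), l.Nodup → (∀ i, i ∈ l) →
      (fun _ => 0) ∈ It (Y j) l) : Hom Y ∅ := by
  intro k A x _ hx
  have hA : A = ∅ := by
    rw [Finset.eq_empty_iff_forall_notMem]
    intro i hi
    exact hx i hi
  subst hA
  intro l hl hl'
  refine (It_congr (Y k) l (fun _ => 0) x fun i hi => ?_).1 (h0 k l hl fun i => ?_)
  · exact absurd ((hl' i).2 (Finset.notMem_empty i)) hi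
  · exact (hl' i).2 (Finset.notMem_empty i)

theorem hom_sUnion (h0 : Hom Y ∅) {c : Set (Set ℂ)} (hc : ∀ T ∈ c, Hom Y T)
    (hchain : IsChain (· ⊆ ·) c) : Hom Y (⋃₀ c) := by
  classical
  rcases c.eq_empty_or_nonempty with hc0 | hc0
  · rw [hc0, sUnion_empty]
    exact h0
  · intro k A x hinj hx
    have hdir : DirectedOn (fun a b : Set ℂ => a ⊆ b) c := hchain.directedOn
    have hfin : ∃ T ∈ c, ((A.image x : Finset ℂ) : Set ℂ) ⊆ T := by
      refine DirectedOn.exists_mem_subset_of_finset_subset_biUnion (f := fun T : Set ℂ => T)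
        hc0 hdir ?_
      intro z hz
      obtain ⟨i, hi, rfl⟩ := Finset.mem_image.1 (Finset.mem_coe.1 hz)
      obtain ⟨T, hT, hxT⟩ := mem_sUnion.1 (hx i hi)
      exact mem_biUnion hT hxT
    obtain ⟨T, hT, hAT⟩ := hfin
    exact hc T hT k A x hinj fun i hi =>
      hAT (Finset.mem_coe.2 (Finset.mem_image_of_mem x hi))

theorem card_bad (hY : ∀ j, Tame (Y j)) {H : Set ℂ} {κ : Cardinal.{0}} (hκ : ℵ₀ < κ)
    (hc : #H < κ) : #(Bad Y H) < κ := by
  have hc' : #(insert 0 H : Set ℂ) < κ := by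
    refine Cardinal.mk_insert_le.trans_lt ?_
    exact Cardinal.add_lt_of_lt hκ.le hc (Cardinal.one_lt_aleph0.trans hκ)
  have hE : ∀ p, (E Y H p).Countable := by
    intro p
    by_cases hp : Good (Y p.1) p.2.1 (fun j => (p.2.2.1 j : ℂ)) ∧ p.2.2.2 ∉ p.2.1
    · exact (Good.step (hY _) hp.1 hp.2).mono fun z hz => hz.2.2
    · refine Set.countable_empty.mono ?_
      intro z hz
      exact absurd ⟨hz.1, hz.2.1⟩ hp
  refine (Cardinal.mk_union_le _ _).trans_lt ?_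
  refine Cardinal.add_lt_of_lt hκ.le hc ?_
  refine (Cardinal.mk_iUnion_le _).trans_lt ?_
  refine Cardinal.mul_lt_of_lt hκ.le (config_lt ar hκ hc') ?_
  refine lt_of_le_of_lt (ciSup_le' fun p => ?_) hκ
  exact Cardinal.le_aleph0_iff_set_countable.2 (hE p)

theorem hom_insert {H : Set ℂ} (hH : Hom Y H) {z0 : ℂ} (hz0 : z0 ∉ Bad Y H) :
    Hom Y (insert z0 H) := by
  have hz0E : ∀ p, z0 ∉ E Y H p := fun p h => hz0 (Or.inr (mem_iUnion.2 ⟨p, h⟩))
  intro k A x hinj hx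
  by_cases hex : ∃ i ∈ A, x i = z0
  · obtain ⟨i, hiA, hi⟩ := hex
    classical
    let x' : Fin (ar k) → (insert 0 H : Set ℂ) := fun j =>
      if h : j ∈ A.erase i then ⟨x j, by
        have h1 : j ∈ A := Finset.mem_of_mem_erase h
        rcases hx j h1 with h2 | h2
        · exfalso
          exact Finset.ne_of_mem_erase h (hinj (Finset.mem_coe.2 h1)
            (Finset.mem_coe.2 hiA) (h2.trans hi.symm))
        · exact Or.inr h2⟩ else ⟨0, Or.inl rfl⟩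
    have hx'1 : ∀ j, j ∈ A.erase i → (x' j : ℂ) = x j := by
      intro j hj
      simp only [x', dif_pos hj]
    have hg : Good (Y k) (A.erase i) (fun j => (x' j : ℂ)) := by
      refine hH k (A.erase i) _ ?_ ?_
      · intro a ha b hb hab
        have hab' : (x' a : ℂ) = x' b := hab
        rw [hx'1 a ha, hx'1 b hb] at hab'
        exact hinj (Finset.mem_coe.2 (Finset.mem_of_mem_erase ha))
          (Finset.mem_coe.2 (Finset.mem_of_mem_erase hb)) hab'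
      · intro j hj
        show (x' j : ℂ) ∈ H
        rw [hx'1 j hj]
        rcases hx j (Finset.mem_of_mem_erase hj) with h2 | h2
        · exfalso
          exact Finset.ne_of_mem_erase hj (hinj (Finset.mem_coe.2
            (Finset.mem_of_mem_erase hj)) (Finset.mem_coe.2 hiA) (h2.trans hi.symm))
        · exact h2
    have h3 := hz0E ⟨k, A.erase i, x', i⟩
    have h4 : Good (Y k) (insert i (A.erase i)) (update (fun j => (x' j : ℂ)) i z0) := by
      by_contra hcon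
      exact h3 ⟨hg, Finset.notMem_erase i A, hcon⟩
    rw [Finset.insert_erase hiA] at h4
    refine h4.congr fun j hj => ?_
    by_cases hji : j = i
    · subst hji
      rw [update_self, hi]
    · rw [update_of_ne hji]
      exact hx'1 j (Finset.mem_erase.2 ⟨hji, hj⟩)
  · push Not at hex
    refine hH k A x hinj fun i hi => ?_
    rcases hx i hi with h2 | h2
    · exact absurd h2 (hex i hi)
    · exact h2

open Classical in
/-- the choice of the points by transfinite recursion -/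
noncomputable def pick {ι : Type} [LinearOrder ι] [WellFoundedLT ι] (C : ι → Set ℂ) (i : ι) : ℂ :=
  WellFounded.fix (wellFounded_lt : WellFounded ((· < ·) : ι → ι → Prop)) (C := fun _ => ℂ)
    (fun i rec => if h : (C i \ Bad Y {z | ∃ (j : ι) (hj : j < i), rec j hj = z}).Nonempty
      then h.some else 0) i

theorem pick_spec (hY : ∀ j, Tame (Y j)) {ι : Type} [LinearOrder ι] [WellFoundedLT ι]
    (C : ι → Set ℂ) (hC : ∀ i, ℵ₀ < #(C i) ∧ #(Iio i) < #(C i)) (i : ι) :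
    pick Y C i ∈ C i ∧ pick Y C i ∉ Bad Y (pick Y C '' Iio i) := by
  classical
  have h1 : pick Y C i = if h : (C i \ Bad Y {z | ∃ (j : ι) (_ : j < i), pick Y C j = z}).Nonempty
      then h.some else 0 := by
    unfold pick
    rw [WellFounded.fix_eq]
  have h2 : {z | ∃ (j : ι) (_ : j < i), pick Y C j = z} = pick Y C '' Iio i := by
    ext z
    constructor
    · rintro ⟨j, hj, rfl⟩
      exact ⟨j, hj, rfl⟩
    · rintro ⟨j, hj, rfl⟩
      exact ⟨j, hj, rfl⟩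
  rw [h2] at h1
  have h3 : (C i \ Bad Y (pick Y C '' Iio i)).Nonempty := by
    rw [Set.nonempty_iff_ne_empty]
    intro h
    rw [sdiff_eq_empty] at h
    have h4 := card_bad Y hY (hC i).1 (H := pick Y C '' Iio i)
      (Cardinal.mk_image_le.trans_lt (hC i).2)
    exact absurd (Cardinal.mk_le_mk_of_subset h) (not_le.2 h4)
  rw [dif_pos h3] at h1
  have h4 := h3.some_mem
  rw [← h1] at h4
  exact h4

theorem pick_hom (hY : ∀ j, Tame (Y j))
    (h0 : ∀ (j : J) (l : List (Fin (ar j))), l.Nodup → (∀ i, i ∈ l) →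
      (fun _ => 0) ∈ It (Y j) l) {ι : Type} [LinearOrder ι] [WellFoundedLT ι]
    (C : ι → Set ℂ) (hC : ∀ i, ℵ₀ < #(C i) ∧ #(Iio i) < #(C i)) : Hom Y (range (pick Y C)) := by
  have hchain : ∀ s : Set ι, IsChain (· ⊆ ·) ((fun i => pick Y C '' Iic i) '' s) := by
    rintro s _ ⟨i, _, rfl⟩ _ ⟨j, _, rfl⟩ _
    rcases le_total i j with h | h
    · exact Or.inl (image_mono (Iic_subset_Iic.2 h))
    · exact Or.inr (image_mono (Iic_subset_Iic.2 h))
  have key : ∀ i, Hom Y (pick Y C '' Iic i) := by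
    intro i
    induction i using WellFoundedLT.induction with
    | ind i ih =>
      have h1 : Hom Y (pick Y C '' Iio i) := by
        have h2 : pick Y C '' Iio i = ⋃₀ ((fun i => pick Y C '' Iic i) '' Iio i) := by
          ext z
          constructor
          · rintro ⟨j, hj, rfl⟩
            exact mem_sUnion.2 ⟨_, ⟨j, hj, rfl⟩, ⟨j, le_rfl, rfl⟩⟩
          · intro hz
            obtain ⟨_, ⟨j, hj, rfl⟩, ⟨l, hl, rfl⟩⟩ := mem_sUnion.1 hz
            exact ⟨l, lt_of_le_of_lt hl hj, rfl⟩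
        rw [h2]
        refine hom_sUnion Y (hom_empty Y h0) ?_ (hchain _)
        rintro _ ⟨j, hj, rfl⟩
        exact ih j hj
      have h2 := hom_insert Y h1 (pick_spec Y hY C hC i).2
      have h3 : pick Y C '' Iic i = insert (pick Y C i) (pick Y C '' Iio i) := by
        rw [← Iio_insert, image_insert_eq]
      rw [h3]
      exact h2
  have h4 : range (pick Y C) = ⋃₀ ((fun i => pick Y C '' Iic i) '' univ) := by
    ext z
    constructor
    · rintro ⟨j, rfl⟩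
      exact mem_sUnion.2 ⟨_, ⟨j, trivial, rfl⟩, ⟨j, le_rfl, rfl⟩⟩
    · intro hz
      obtain ⟨_, ⟨j, _, rfl⟩, ⟨l, _, rfl⟩⟩ := mem_sUnion.1 hz
      exact ⟨l, rfl⟩
  rw [h4]
  refine hom_sUnion Y (hom_empty Y h0) ?_ (hchain _)
  rintro _ ⟨j, _, rfl⟩
  exact key j

theorem pick_inj (hY : ∀ j, Tame (Y j)) {ι : Type} [LinearOrder ι] [WellFoundedLT ι]
    (C : ι → Set ℂ) (hC : ∀ i, ℵ₀ < #(C i) ∧ #(Iio i) < #(C i)) : Injective (pick Y C) := by
  intro i j hij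
  rcases lt_trichotomy i j with h | h | h
  · exact absurd (Or.inl ⟨i, h, hij⟩) (pick_spec Y hY C hC j).2
  · exact h
  · exact absurd (Or.inl ⟨j, h, hij.symm⟩) (pick_spec Y hY C hC i).2

/-- a homogeneous set which meets all sets of a family of continuum many sets, and its complement too -/
theorem hom_meets (hY : ∀ j, Tame (Y j))
    (h0 : ∀ (j : J) (l : List (Fin (ar j))), l.Nodup → (∀ i, i ∈ l) →
      (fun _ => 0) ∈ It (Y j) l) (𝒞 : Set (Set ℂ)) (h𝒞 : #𝒞 ≤ 𝔠) (hc : ∀ C ∈ 𝒞, 𝔠 ≤ #C) :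
    ∃ H : Set ℂ, (∀ C ∈ 𝒞, 𝔠 ≤ #(H ∩ C : Set ℂ) ∧ 𝔠 ≤ #(C \ H : Set ℂ)) ∧
      ∀ (j : J) (x : Fin (ar j) → ℂ), Injective x → (∀ i, x i ∈ H) → x ∈ Y j := by
  have hι : #(𝒞 × Bool × ℝ) ≤ 𝔠 := by
    rw [Cardinal.mk_prod, Cardinal.mk_prod]
    simp only [Cardinal.lift_id, Cardinal.mk_real, Cardinal.mk_bool]
    have h2 : (2 : Cardinal) ≤ 𝔠 := by
      exact_mod_cast (Cardinal.natCast_lt_aleph0 (n := 2)).le.trans Cardinal.aleph0_le_continuum
    refine (mul_le_mul' h𝒞 (mul_le_mul' h2 le_rfl)).trans ?_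
    rw [Cardinal.continuum_mul_self, Cardinal.continuum_mul_self]
  obtain ⟨e⟩ : Nonempty ((#(𝒞 × Bool × ℝ)).ord.ToType ≃ (𝒞 × Bool × ℝ)) :=
    Cardinal.eq.1 (Cardinal.mk_ord_toType _)
  have hlt : ∀ i : (#(𝒞 × Bool × ℝ)).ord.ToType, #(Iio i) < #(𝒞 × Bool × ℝ) := fun i =>
    Cardinal.mk_Iio_toType_ord_lt i
  let C' : (#(𝒞 × Bool × ℝ)).ord.ToType → Set ℂ := fun i => ((e i).1 : Set ℂ)
  have hC : ∀ i, ℵ₀ < #(C' i) ∧ #(Iio i) < #(C' i) := fun i =>
    ⟨Cardinal.aleph0_lt_continuum.trans_le (hc _ (e i).1.2),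
      ((hlt i).trans_le hι).trans_le (hc _ (e i).1.2)⟩
  have hinj := pick_inj Y hY C' hC
  have hmem : ∀ q : 𝒞 × Bool × ℝ, pick Y C' (e.symm q) ∈ (q.1 : Set ℂ) := by
    intro q
    have h1 := (pick_spec Y hY C' hC (e.symm q)).1
    have h2 : C' (e.symm q) = (q.1 : Set ℂ) := by
      show ((e (e.symm q)).1 : Set ℂ) = _
      rw [Equiv.apply_symm_apply]
    rwa [h2] at h1
  have hinj' : ∀ q q' : 𝒞 × Bool × ℝ, pick Y C' (e.symm q) = pick Y C' (e.symm q') → q = q' :=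
    fun q q' h => e.symm.injective (hinj h)
  have hhom := pick_hom Y hY h0 C' hC
  refine ⟨(fun q : 𝒞 × Bool × ℝ => pick Y C' (e.symm q)) '' {q | q.2.1 = true},
    fun C hC' => ⟨?_, ?_⟩, fun k x hx hxH => ?_⟩
  · rw [← Cardinal.mk_real]
    refine Cardinal.mk_le_of_injective (f := fun t : ℝ =>
      (⟨pick Y C' (e.symm (⟨C, hC'⟩, true, t)), ⟨_, rfl, rfl⟩, hmem (⟨C, hC'⟩, true, t)⟩ :
        ((fun q : 𝒞 × Bool × ℝ => pick Y C' (e.symm q)) '' {q | q.2.1 = true} ∩ C : Set ℂ))) ?_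
    intro s t hst
    have h1 := hinj' _ _ (congrArg Subtype.val hst)
    exact congrArg (fun i : 𝒞 × Bool × ℝ => i.2.2) h1
  · rw [← Cardinal.mk_real]
    have hnot : ∀ t : ℝ, pick Y C' (e.symm (⟨C, hC'⟩, false, t)) ∉
        (fun q : 𝒞 × Bool × ℝ => pick Y C' (e.symm q)) '' {q | q.2.1 = true} := by
      rintro t ⟨q, hq, h⟩
      have h1 := hinj' _ _ h
      rw [h1] at hq
      exact Bool.false_ne_true hq
    refine Cardinal.mk_le_of_injective (f := fun t : ℝ =>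
      (⟨pick Y C' (e.symm (⟨C, hC'⟩, false, t)), hmem (⟨C, hC'⟩, false, t), hnot t⟩ :
        (C \ (fun q : 𝒞 × Bool × ℝ => pick Y C' (e.symm q)) '' {q | q.2.1 = true} : Set ℂ))) ?_
    intro s t hst
    have h1 := hinj' _ _ (congrArg Subtype.val hst)
    exact congrArg (fun i : 𝒞 × Bool × ℝ => i.2.2) h1
  · have h1 := hhom k Finset.univ x hx.injOn fun i _ => by
      obtain ⟨q, _, hq⟩ := hxH i
      exact ⟨e.symm q, hq⟩
    exact h1 [] List.nodup_nil (by simp)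

end comb

theorem continuum_le_of_borel {C : Set ℂ} (hC : MeasurableSet C) (hu : ¬ C.Countable) :
    𝔠 ≤ #C := by
  haveI := hC.standardBorel
  have h1 : ¬ Countable C := fun h => hu (Set.countable_coe_iff.1 h)
  have h2 := Cardinal.mk_congr (PolishSpace.measurableEquivNatBoolOfNotCountable h1).toEquiv
  rw [h2]
  simp

theorem card_borel : #{C : Set ℂ | MeasurableSet C ∧ ¬ C.Countable} ≤ 𝔠 := by
  have h1 : #{t : Set ℂ | @MeasurableSet ℂ (MeasurableSpace.generateFrom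
      (MeasurableSpace.countableGeneratingSet ℂ)) t} ≤ 𝔠 := by
    refine MeasurableSpace.cardinal_measurableSet_le_continuum ?_
    exact (Cardinal.le_aleph0_iff_set_countable.2
      (MeasurableSpace.countable_countableGeneratingSet (α := ℂ))).trans
      Cardinal.aleph0_le_continuum
  rw [MeasurableSpace.generateFrom_countableGeneratingSet] at h1
  exact (Cardinal.mk_le_mk_of_subset (fun C hC => hC.1)).trans h1

section

variable {m : ℕ → ℕ} {F : (k : ℕ) → (Fin (m k) → ℂ) → ℂ → ℂ} {ν : ℕ → ℕ}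
  {R : (j : ℕ) → Set (Fin (ν j) → ℂ)} {A : Set ℂ}

theorem bern_maps
    (hF : ∀ k, AnalyticOnNhd ℂ (fun p : (Fin (m k) → ℂ) × ℂ => F k p.1 p.2) Set.univ)
    (hord : ∀ k, FiniteOrder (F k)) (hR : ∀ j, CQ (ν j) (R j)) (hRm : ∀ j, MeasurableSet (R j))
    (hA : A.Countable) {J : Type} [Countable J] {n d : J → ℕ}
    (φ : (j : J) → (Fin (n j) → ℂ) → (Fin (d j) → ℂ)) (hφ : ∀ j, AnalyticOnNhd ℂ (φ j) univ)
    (𝒞 : Set (Set ℂ)) (h𝒞 : #𝒞 ≤ 𝔠) (hc : ∀ C ∈ 𝒞, 𝔠 ≤ #C) :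
    ∃ H : Set ℂ, (∀ C ∈ 𝒞, 𝔠 ≤ #(H ∩ C : Set ℂ) ∧ 𝔠 ≤ #(C \ H : Set ℂ)) ∧
      ∀ (j : J) (x : Fin (n j) → ℂ), Injective x → (∀ i, x i ∈ H) →
      (∀ y : Fin (n j) → ℂ, Injective y → (∀ i, y i ∈ H) → ∃ σ, IsIso F R A (φ j x) (φ j y) σ) ∧
      ∀ (μ : Fin (n j) → Measure ℂ) [∀ i, SigmaFinite (μ i)], (∀ i z, μ i {z} = 0) →
        ∀ᵐ y ∂(Measure.pi μ), ∃ σ, IsIso F R A (φ j x) (φ j y) σ := by
  classical
  choose x₀ hx₀ using fun j : J =>
    ae_iso (F := F) (R := R) hF hord hR hRm hA (n j) (d j) (φ j) (hφ j)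
  obtain ⟨γ, hγp, hγa, -⟩ := exists_prob 0 (fun z => by simp)
  have hbc : ∀ j, BC (n j) {y : Fin (n j) → ℂ | ∃ σ, IsIso F R A (φ j (x₀ j)) (φ j y) σ} :=
    fun j => ⟨class_cq hF hord hR hA (hφ j) (φ j (x₀ j)),
      class_meas Pool.Agent.N687.IC.t_SC hF hRm hA (hφ j) (φ j (x₀ j))⟩
  have hae : ∀ j, ∀ᵐ y ∂(Measure.pi fun _ : Fin (n j) => γ),
      y ∈ {y : Fin (n j) → ℂ | ∃ σ, IsIso F R A (φ j (x₀ j)) (φ j y) σ} := fun j =>
    hx₀ j (fun _ => γ) (fun _ => hγa)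
  obtain ⟨H, hHc, hH⟩ := hom_meets (J := J) (ar := n)
    (fun j => {y : Fin (n j) → ℂ | ∃ σ, IsIso F R A (φ j (x₀ j)) (φ j y) σ})
    (fun j => BC_tame (hbc j)) (fun j l _ hl => It_zero γ hγa (hae j) l hl) 𝒞 h𝒞 hc
  refine ⟨H, hHc, fun j x hx hxH => ⟨fun y hy hyH => ?_, fun μ _ hμ => ?_⟩⟩
  · exact iso_trans (iso_symm (hH j x hx hxH)) (hH j y hy hyH)
  · filter_upwards [hx₀ j μ hμ] with y hy
    exact iso_trans (iso_symm (hH j x hx hxH)) hy

/-- Bernstein sets of indiscernibles -/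
theorem bernstein
    (hF : ∀ k, AnalyticOnNhd ℂ (fun p : (Fin (m k) → ℂ) × ℂ => F k p.1 p.2) Set.univ)
    (hord : ∀ k, FiniteOrder (F k)) (hR : ∀ j, CQ (ν j) (R j)) (hRm : ∀ j, MeasurableSet (R j))
    (hA : A.Countable) {a b : ℕ → ℕ} (φ : (j : ℕ) → (Fin (a j) → ℂ) → (Fin (b j) → ℂ))
    (hφ : ∀ j, AnalyticOnNhd ℂ (φ j) univ)
    (𝒞 : Set (Set ℂ)) (h𝒞 : #𝒞 ≤ 𝔠) (hc : ∀ C ∈ 𝒞, #C = 𝔠) :
    ∃ H : Set ℂ,
      (∀ C : Set ℂ, C ∈ 𝒞 ∨ (MeasurableSet C ∧ ¬ C.Countable) →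
        #(H ∩ C : Set ℂ) = 𝔠 ∧ #(C \ H : Set ℂ) = 𝔠) ∧
      (∀ (n : ℕ) (x : Fin n → ℂ), Injective x → (∀ i, x i ∈ H) →
        (∀ y : Fin n → ℂ, Injective y → (∀ i, y i ∈ H) → ∃ σ, IsIso F R A x y σ) ∧
        ∀ (μ : Fin n → Measure ℂ) [∀ i, SigmaFinite (μ i)], (∀ i z, μ i {z} = 0) →
          ∀ᵐ y ∂(Measure.pi μ), ∃ σ, IsIso F R A x y σ) ∧
      ∀ (j : ℕ) (x : Fin (a j) → ℂ), Injective x → (∀ i, x i ∈ H) →
        (∀ y : Fin (a j) → ℂ, Injective y → (∀ i, y i ∈ H) →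
          ∃ σ, IsIso F R A (φ j x) (φ j y) σ) ∧
        ∀ (μ : Fin (a j) → Measure ℂ) [∀ i, SigmaFinite (μ i)], (∀ i z, μ i {z} = 0) →
          ∀ᵐ y ∂(Measure.pi μ), ∃ σ, IsIso F R A (φ j x) (φ j y) σ := by
  have hψ : ∀ s : ℕ ⊕ ℕ, AnalyticOnNhd ℂ (mix φ s) univ := by
    rintro (n | j)
    · exact analyticOnNhd_id
    · exact hφ j
  have h1 : #(𝒞 ∪ {C : Set ℂ | MeasurableSet C ∧ ¬ C.Countable} : Set (Set ℂ)) ≤ 𝔠 := by
    refine (Cardinal.mk_union_le _ _).trans ((add_le_add h𝒞 card_borel).trans ?_)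
    rw [Cardinal.continuum_add_self]
  obtain ⟨H, h2, h3⟩ := bern_maps hF hord hR hRm hA (mix φ) hψ
    (𝒞 ∪ {C : Set ℂ | MeasurableSet C ∧ ¬ C.Countable}) h1 (by
      rintro C (hC | hC)
      · exact (hc C hC).ge
      · exact continuum_le_of_borel hC.1 hC.2)
  have hle : ∀ S : Set ℂ, #S ≤ 𝔠 := fun S => by
    rw [← Cardinal.mk_complex]
    exact Cardinal.mk_set_le S
  exact ⟨H, fun C hC => ⟨(hle _).antisymm (h2 C hC).1, (hle _).antisymm (h2 C hC).2⟩,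
    fun n => h3 (Sum.inl n), fun j => h3 (Sum.inr j)⟩

end

end Pool.Agent.U195.IH
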