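import Pool.Agent.R158.MM.Close
import Pool.Agent.N587.IC.End

set_option autoImplicit false

/-!
Every uncountable set of complex numbers contains an indiscernible subset of the same cardinality.
-/

namespace Pool.Agent.U195.IH

open Set Function Cardinal MeasureTheory
open Pool.Agent.TH735.QM Pool.Agent.TH735.FO Pool.Agent.TH735.BF Pool.Agent.R158.MM
open Pool.Agent.N587.IC
open scoped Cardinal

/-- the number of the finite configurations in a set of cardinality less than `κ` -/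
lemma config_lt {J : Type} [Countable J] (ar : J → ℕ) {T : Set ℂ} {κ : Cardinal.{0}} (hκ : ℵ₀ < κ)
    (hT : #T < κ) :
    #(Σ j : J, (Finset (Fin (ar j))) × (Fin (ar j) → T) × Fin (ar j)) < κ := by
  have h1 : #(Σ j : J, (Finset (Fin (ar j))) × (Fin (ar j) → T) × Fin (ar j)) ≤
      #((Σ j : J, (Finset (Fin (ar j))) × Fin (ar j)) × List T) := by
    refine Cardinal.mk_le_of_injective
      (f := fun p : (Σ j : J, (Finset (Fin (ar j))) × (Fin (ar j) → T) × Fin (ar j)) =>
        ((⟨p.1, p.2.1, p.2.2.2⟩ : (Σ j : J, (Finset (Fin (ar j))) × Fin (ar j))),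
          List.ofFn p.2.2.1)) ?_
    rintro ⟨k, A, x, i⟩ ⟨k', A', x', i'⟩ h
    simp only [Prod.mk.injEq] at h
    obtain ⟨h1, h2⟩ := h
    obtain rfl : k = k' := congrArg Sigma.fst h1
    have h3 := eq_of_heq (Sigma.mk.inj h1).2
    obtain ⟨rfl, rfl⟩ := Prod.mk.inj h3
    obtain rfl := List.ofFn_injective h2
    rfl
  refine h1.trans_lt ?_
  rw [Cardinal.mk_prod, Cardinal.lift_id, Cardinal.lift_id]
  refine Cardinal.mul_lt_of_lt hκ.le ?_ ?_
  · exact (Cardinal.mk_le_aleph0 (α := Σ j : J, (Finset (Fin (ar j))) × Fin (ar j))).trans_lt hκ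
  · exact (Cardinal.mk_list_le_max T).trans_lt (max_lt hκ hT)

/-- the iterated quantifiers give homogeneous subsets of full cardinality in all uncountable sets -/
theorem homogeneous_in {J : Type} [Countable J] {ar : J → ℕ}
    (Y : (j : J) → Set (Fin (ar j) → ℂ)) (hY : ∀ j, Tame (Y j))
    (h0 : ∀ (j : J) (l : List (Fin (ar j))), l.Nodup → (∀ i, i ∈ l) →
      (fun _ => 0) ∈ It (Y j) l) {P : Set ℂ} (hP : ¬ P.Countable) :
    ∃ H ⊆ P, #H = #P ∧ ∀ (j : J) (x : Fin (ar j) → ℂ), Injective x → (∀ i, x i ∈ H) →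
      x ∈ Y j := by
  · classical
    have hκ : ℵ₀ < #P := by
      rw [← not_le]
      exact fun h => hP (Cardinal.le_aleph0_iff_set_countable.1 h)
    set S : Set (Set ℂ) := {H | H ⊆ P ∧ ∀ (k : J) (A : Finset (Fin (ar k)))
      (x : Fin (ar k) → ℂ), InjOn x A → (∀ i ∈ A, x i ∈ H) → Good (Y k) A x} with hS
    have hempty : (∅ : Set ℂ) ∈ S := by
      refine ⟨empty_subset _, ?_⟩
      intro k A x _ hx
      have hA : A = ∅ := by
        rw [Finset.eq_empty_iff_forall_notMem]
        intro i hi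
        exact hx i hi
      subst hA
      intro l hl hl'
      refine (It_congr (Y k) l (fun _ => 0) x fun i hi => ?_).1 (h0 k l hl fun i => ?_)
      · exact absurd ((hl' i).2 (Finset.notMem_empty i)) hi
      · exact (hl' i).2 (Finset.notMem_empty i)
    obtain ⟨H, hHmax⟩ := zorn_subset S (by
      intro c hc hchain
      rcases c.eq_empty_or_nonempty with hc0 | hc0
      · exact ⟨∅, hempty, fun s hs => by rw [hc0] at hs; exact absurd hs (Set.notMem_empty s)⟩
      · refine ⟨⋃₀ c, ⟨sUnion_subset fun T hT => (hc hT).1, ?_⟩, fun s hs => subset_sUnion_of_mem hs⟩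
        intro k A x hinj hx
        have hdir : DirectedOn (fun a b : Set ℂ => a ⊆ b) c := hchain.directedOn
        have hfin : ∃ T ∈ c, ((A.image x : Finset ℂ) : Set ℂ) ⊆ T := by
          refine DirectedOn.exists_mem_subset_of_finset_subset_biUnion (f := fun T : Set ℂ => T)
            hc0 hdir ?_
          intro z hz
          obtain ⟨i, hi, rfl⟩ := Finset.mem_image.1 (Finset.mem_coe.1 hz)
          obtain ⟨T, hT, hxT⟩ := mem_sUnion.1 (hx i hi)
          exact mem_biUnion hT hxT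
        obtain ⟨T, hT, hAT⟩ := hfin
        exact (hc hT).2 k A x hinj fun i hi =>
          hAT (Finset.mem_coe.2 (Finset.mem_image_of_mem x hi)))
    have hHS : H ∈ S := hHmax.1
    refine ⟨H, hHS.1, ?_, fun k x hinj hx => ?_⟩
    · -- a further point
      refine le_antisymm (Cardinal.mk_le_mk_of_subset hHS.1) ?_
      by_contra hcc
      have hc : #H < #P := not_le.1 hcc
      have hc' : #(insert 0 H : Set ℂ) < #P := by
        refine Cardinal.mk_insert_le.trans_lt ?_
        exact Cardinal.add_lt_of_lt hκ.le hc (Cardinal.one_lt_aleph0.trans hκ)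
      let I : Type := Σ k : J, (Finset (Fin (ar k))) × (Fin (ar k) → (insert 0 H : Set ℂ)) ×
        Fin (ar k)
      have hIc : #I < #P := config_lt ar hκ hc'
      let E : I → Set ℂ := fun p =>
        {z : ℂ | Good (Y p.1) p.2.1 (fun j => (p.2.2.1 j : ℂ)) ∧ p.2.2.2 ∉ p.2.1 ∧
          ¬ Good (Y p.1) (insert p.2.2.2 p.2.1) (update (fun j => (p.2.2.1 j : ℂ)) p.2.2.2 z)}
      have hE : ∀ p, (E p).Countable := by
        intro p
        by_cases hp : Good (Y p.1) p.2.1 (fun j => (p.2.2.1 j : ℂ)) ∧ p.2.2.2 ∉ p.2.1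
        · exact (Good.step (hY _) hp.1 hp.2).mono fun z hz => hz.2.2
        · refine Set.countable_empty.mono ?_
          intro z hz
          exact absurd ⟨hz.1, hz.2.1⟩ hp
      have hU : #(H ∪ ⋃ p, E p : Set ℂ) < #P := by
        refine (Cardinal.mk_union_le _ _).trans_lt ?_
        refine Cardinal.add_lt_of_lt hκ.le hc ?_
        refine (Cardinal.mk_iUnion_le _).trans_lt ?_
        refine Cardinal.mul_lt_of_lt hκ.le hIc ?_
        refine lt_of_le_of_lt (ciSup_le' fun p => ?_) hκ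
        exact Cardinal.le_aleph0_iff_set_countable.2 (hE p)
      obtain ⟨z0, hz0P, hz0⟩ : ∃ z0 ∈ P, z0 ∉ H ∪ ⋃ p, E p := by
        by_contra hcon
        push Not at hcon
        exact absurd (Cardinal.mk_le_mk_of_subset (show P ⊆ H ∪ ⋃ p, E p from hcon)) (not_le.2 hU)
      have hz0H : z0 ∉ H := fun h => hz0 (Or.inl h)
      have hz0E : ∀ p, z0 ∉ E p := fun p h => hz0 (Or.inr (mem_iUnion.2 ⟨p, h⟩))
      have hins : insert z0 H ∈ S := by
        refine ⟨insert_subset hz0P hHS.1, ?_⟩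
        intro k A x hinj hx
        by_cases hex : ∃ i ∈ A, x i = z0
        · obtain ⟨i, hiA, hi⟩ := hex
          classical
          let x' : Fin (ar k) → (insert 0 H : Set ℂ) := fun j =>
            if h : j ∈ A.erase i then ⟨x j, by
              have h1 : j ∈ A := Finset.mem_of_mem_erase h
              rcases hx j h1 with h2 | h2
              · exfalso
                exact Finset.ne_of_mem_erase h (hinj (Finset.mem_coe.2 h1)
                  (Finset.mem_coe.2 hiA) (h2.trans hi.symm))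
              · exact Or.inr h2⟩ else ⟨0, Or.inl rfl⟩
          have hx'1 : ∀ j, j ∈ A.erase i → (x' j : ℂ) = x j := by
            intro j hj
            simp only [x', dif_pos hj]
          have hg : Good (Y k) (A.erase i) (fun j => (x' j : ℂ)) := by
            refine hHS.2 k (A.erase i) _ ?_ ?_
            · intro a ha b hb hab
              have hab' : (x' a : ℂ) = x' b := hab
              rw [hx'1 a ha, hx'1 b hb] at hab'
              exact hinj (Finset.mem_coe.2 (Finset.mem_of_mem_erase ha))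
                (Finset.mem_coe.2 (Finset.mem_of_mem_erase hb)) hab'
            · intro j hj
              show (x' j : ℂ) ∈ H
              rw [hx'1 j hj]
              rcases hx j (Finset.mem_of_mem_erase hj) with h2 | h2
              · exfalso
                exact Finset.ne_of_mem_erase hj (hinj (Finset.mem_coe.2
                  (Finset.mem_of_mem_erase hj)) (Finset.mem_coe.2 hiA) (h2.trans hi.symm))
              · exact h2
          have h3 := hz0E ⟨k, A.erase i, x', i⟩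
          have h4 : Good (Y k) (insert i (A.erase i)) (update (fun j => (x' j : ℂ)) i z0) := by
            by_contra hcon
            exact h3 ⟨hg, Finset.notMem_erase i A, hcon⟩
          rw [Finset.insert_erase hiA] at h4
          refine h4.congr fun j hj => ?_
          by_cases hji : j = i
          · subst hji
            rw [update_self, hi]
          · rw [update_of_ne hji]
            exact hx'1 j (Finset.mem_erase.2 ⟨hji, hj⟩)
        · push Not at hex
          refine hHS.2 k A x hinj fun i hi => ?_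
          rcases hx i hi with h2 | h2
          · exact absurd h2 (hex i hi)
          · exact h2
      exact hz0H (hHmax.2 hins (subset_insert z0 H) (mem_insert z0 H))
    · have h1 := hHS.2 k Finset.univ x hinj.injOn fun i _ => hx i
      exact h1 [] List.nodup_nil (by simp)


theorem It_bc {k : ℕ} {X : Set (Fin k → ℂ)} (h : BC k X) : ∀ l : List (Fin k), BC k (It X l) := by
  intro l
  induction l with
  | nil => exact h
  | cons i l ih => exact ih.unc i

theorem BC_tame {k : ℕ} {X : Set (Fin k → ℂ)} (h : BC k X) : Tame X :=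
  fun l x i => (It_bc h l).sec i x

theorem It_ae {k : ℕ} {X : Set (Fin k → ℂ)} (γ : Measure ℂ) [IsProbabilityMeasure γ]
    (hγ : ∀ z, γ {z} = 0) (hae : ∀ᵐ x ∂(Measure.pi fun _ : Fin k => γ), x ∈ X) :
    ∀ l : List (Fin k), ∀ᵐ x ∂(Measure.pi fun _ : Fin k => γ), x ∈ It X l := by
  have : NullSingletonClass γ := ⟨hγ⟩
  intro l
  induction l with
  | nil => exact hae
  | cons i l ih =>
    have h1 := (Pool.Agent.N700.IC.resample (μ := fun _ : Fin k => γ) i).quasiMeasurePreserving.ae ih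
    have h2 := Measure.ae_ae_of_ae_prod h1
    filter_upwards [h2] with x hx
    show ¬ {z : ℂ | update x i z ∈ It X l}.Countable
    intro hc
    have h3 : γ {z : ℂ | update x i z ∈ It X l} = 0 := hc.measure_zero γ
    have h4 : γ {z : ℂ | update x i z ∈ It X l}ᶜ = 0 := hx
    have h5 : γ univ = 0 := by
      rw [← union_compl_self {z : ℂ | update x i z ∈ It X l}]
      exact measure_union_null h3 h4
    rw [measure_univ] at h5
    exact one_ne_zero h5

theorem It_zero {k : ℕ} {X : Set (Fin k → ℂ)} (γ : Measure ℂ) [IsProbabilityMeasure γ]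
    (hγ : ∀ z, γ {z} = 0) (hae : ∀ᵐ x ∂(Measure.pi fun _ : Fin k => γ), x ∈ X)
    (l : List (Fin k)) (hl : ∀ i, i ∈ l) : (fun _ => 0) ∈ It X l := by
  obtain ⟨x, hx⟩ := (It_ae γ hγ hae l).exists
  exact (It_congr X l x _ fun i hi => absurd (hl i) hi).1 hx

section

variable {m : ℕ → ℕ} {F : (k : ℕ) → (Fin (m k) → ℂ) → ℂ → ℂ} {ν : ℕ → ℕ}
  {R : (j : ℕ) → Set (Fin (ν j) → ℂ)} {A : Set ℂ}

theorem iso_symm {n : ℕ} {x y : Fin n → ℂ} (h : ∃ σ, IsIso F R A x y σ) :
    ∃ σ, IsIso F R A y x σ := by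
  obtain ⟨σ, a1, a2, a3⟩ := h
  refine ⟨σ.symm, fun i => ?_, fun w hw => ?_, fun j v => ?_⟩
  · have e : σ ⟨x i, Cl.base (Or.inr ⟨i, rfl⟩)⟩ = ⟨y i, Cl.base (Or.inr ⟨i, rfl⟩)⟩ :=
      Subtype.ext (a1 i)
    rw [← e, Equiv.symm_apply_apply]
  · have e : σ ⟨w, hw.mono subset_union_left⟩ = ⟨w, hw.mono subset_union_left⟩ :=
      Subtype.ext (a2 w hw)
    have e2 : σ.symm ⟨w, hw.mono subset_union_left⟩ = ⟨w, hw.mono subset_union_left⟩ := by
      rw [← e, Equiv.symm_apply_apply]
    rw [e2]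
  · have h1 := a3 j (fun a => σ.symm (v a))
    simp only [Equiv.apply_symm_apply] at h1
    exact h1.symm

/-- subsets of full cardinality which are homogeneous for countably many entire maps -/
theorem homogeneous_maps
    (hF : ∀ k, AnalyticOnNhd ℂ (fun p : (Fin (m k) → ℂ) × ℂ => F k p.1 p.2) Set.univ)
    (hord : ∀ k, FiniteOrder (F k)) (hR : ∀ j, CQ (ν j) (R j)) (hRm : ∀ j, MeasurableSet (R j))
    (hA : A.Countable) {J : Type} [Countable J] {n d : J → ℕ}
    (φ : (j : J) → (Fin (n j) → ℂ) → (Fin (d j) → ℂ)) (hφ : ∀ j, AnalyticOnNhd ℂ (φ j) univ)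
    {P : Set ℂ} (hP : ¬ P.Countable) :
    ∃ H ⊆ P, #H = #P ∧ ∀ (j : J) (x : Fin (n j) → ℂ), Injective x → (∀ i, x i ∈ H) →
      (∀ y : Fin (n j) → ℂ, Injective y → (∀ i, y i ∈ H) → ∃ σ, IsIso F R A (φ j x) (φ j y) σ) ∧
      ∀ (μ : Fin (n j) → Measure ℂ) [∀ i, SigmaFinite (μ i)], (∀ i z, μ i {z} = 0) →
        ∀ᵐ y ∂(Measure.pi μ), ∃ σ, IsIso F R A (φ j x) (φ j y) σ := by
  classical
  choose x₀ hx₀ using fun j : J =>
    ae_iso (F := F) (R := R) hF hord hR hRm hA (n j) (d j) (φ j) (hφ j)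
  obtain ⟨γ, hγp, hγa, -⟩ := exists_prob 0 (fun z => by simp)
  have hbc : ∀ j, BC (n j) {y : Fin (n j) → ℂ | ∃ σ, IsIso F R A (φ j (x₀ j)) (φ j y) σ} :=
    fun j => ⟨class_cq hF hord hR hA (hφ j) (φ j (x₀ j)),
      class_meas Pool.Agent.N687.IC.t_SC hF hRm hA (hφ j) (φ j (x₀ j))⟩
  have hae : ∀ j, ∀ᵐ y ∂(Measure.pi fun _ : Fin (n j) => γ),
      y ∈ {y : Fin (n j) → ℂ | ∃ σ, IsIso F R A (φ j (x₀ j)) (φ j y) σ} := fun j =>
    hx₀ j (fun _ => γ) (fun _ => hγa)
  obtain ⟨H, hHP, hHc, hH⟩ := homogeneous_in (J := J) (ar := n)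
    (fun j => {y : Fin (n j) → ℂ | ∃ σ, IsIso F R A (φ j (x₀ j)) (φ j y) σ})
    (fun j => BC_tame (hbc j)) (fun j l _ hl => It_zero γ hγa (hae j) l hl) hP
  refine ⟨H, hHP, hHc, fun j x hx hxH => ⟨fun y hy hyH => ?_, fun μ _ hμ => ?_⟩⟩
  · exact iso_trans (iso_symm (hH j x hx hxH)) (hH j y hy hyH)
  · filter_upwards [hx₀ j μ hμ] with y hy
    exact iso_trans (iso_symm (hH j x hx hxH)) hy

/-- arities of the identity maps and of the given maps -/
def ari (a : ℕ → ℕ) : ℕ ⊕ ℕ → ℕ
  | Sum.inl n => n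
  | Sum.inr j => a j

/-- the identity maps and the given maps -/
def mix {a b : ℕ → ℕ} (φ : (j : ℕ) → (Fin (a j) → ℂ) → (Fin (b j) → ℂ)) :
    (s : ℕ ⊕ ℕ) → (Fin (ari a s) → ℂ) → (Fin (ari b s) → ℂ)
  | Sum.inl _ => fun y => y
  | Sum.inr j => φ j

/-- indiscernible subsets of full cardinality, together with countably many entire maps -/
theorem indiscernible_subset
    (hF : ∀ k, AnalyticOnNhd ℂ (fun p : (Fin (m k) → ℂ) × ℂ => F k p.1 p.2) Set.univ)
    (hord : ∀ k, FiniteOrder (F k)) (hR : ∀ j, CQ (ν j) (R j)) (hRm : ∀ j, MeasurableSet (R j))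
    (hA : A.Countable) {a b : ℕ → ℕ} (φ : (j : ℕ) → (Fin (a j) → ℂ) → (Fin (b j) → ℂ))
    (hφ : ∀ j, AnalyticOnNhd ℂ (φ j) univ) {P : Set ℂ} (hP : ¬ P.Countable) :
    ∃ H ⊆ P, #H = #P ∧
      (∀ (n : ℕ) (x : Fin n → ℂ), Injective x → (∀ i, x i ∈ H) →
        (∀ y : Fin n → ℂ, Injective y → (∀ i, y i ∈ H) → ∃ σ, IsIso F R A x y σ) ∧
        ∀ (μ : Fin n → Measure ℂ) [∀ i, SigmaFinite (μ i)], (∀ i z, μ i {z} = 0) →
          ∀ᵐ y ∂(Measure.pi μ), ∃ σ, IsIso F R A x y σ) ∧
      ∀ (j : ℕ) (x : Fin (a j) → ℂ), Injective x → (∀ i, x i ∈ H) →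
        (∀ y : Fin (a j) → ℂ, Injective y → (∀ i, y i ∈ H) →
          ∃ σ, IsIso F R A (φ j x) (φ j y) σ) ∧
        ∀ (μ : Fin (a j) → Measure ℂ) [∀ i, SigmaFinite (μ i)], (∀ i z, μ i {z} = 0) →
          ∀ᵐ y ∂(Measure.pi μ), ∃ σ, IsIso F R A (φ j x) (φ j y) σ := by
  have hψ : ∀ s : ℕ ⊕ ℕ, AnalyticOnNhd ℂ (mix φ s) univ := by
    rintro (n | j)
    · exact analyticOnNhd_id
    · exact hφ j
  obtain ⟨H, h1, h2, h3⟩ := homogeneous_maps hF hord hR hRm hA (mix φ) hψ hP
  exact ⟨H, h1, h2, fun n => h3 (Sum.inl n), fun j => h3 (Sum.inr j)⟩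

end

end Pool.Agent.U195.IH
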